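import Pool.Agent.Helper16.DIL.Spec

/-! MP_a93a41_nt, part GAP of the swarm of helper16. -/

set_option autoImplicit false

namespace Pool.Agent.Helper83.DIL.GAP

open Finset Pool.Agent.Helper16.DIL

theorem loggap {P Q : ℕ} (hP : 1 ≤ P) (hQ : 1 ≤ Q) (h : Q < P) :
    1 / (P : ℝ) ≤ Real.log P - Real.log Q := by
  have hP' : (0 : ℝ) < P := by exact_mod_cast hP
  have hQ' : (0 : ℝ) < Q := by exact_mod_cast hQ
  have h1 : Real.log (Q / P) ≤ Q / P - 1 := Real.log_le_sub_one_of_pos (div_pos hQ' hP')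
  rw [Real.log_div hQ'.ne' hP'.ne'] at h1
  have h2 : (Q : ℝ) + 1 ≤ P := by exact_mod_cast h
  have h3 : 1 / (P : ℝ) ≤ 1 - Q / P := by
    rw [div_le_iff₀ hP', sub_mul, div_mul_cancel₀ _ hP'.ne']
    linarith
  linarith

theorem main : S_GAP := by
  intro J x D k N w n hx hn hPhi
  have hN : 1 ≤ N := le_trans (hn 0).1 (hn 0).2
  obtain ⟨d, hd⟩ : ∃ d : Fin (k + 1) → ℤ, d = fun i => x (w i) - x (w (i + 1)) := ⟨_, rfl⟩
  have hdD : ∀ i, |d i| ≤ D := fun i => by rw [hd]; exact hx _ _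
  have bd : ∀ e : Fin (k + 1) → ℕ, (∀ i, e i ≤ D) → ∏ i, n i ^ e i ≤ N ^ ((k + 1) * D) := by
    intro e he
    calc ∏ i, n i ^ e i ≤ ∏ _i : Fin (k + 1), N ^ D :=
          Finset.prod_le_prod' fun i _ =>
            (Nat.pow_le_pow_left (hn i).2 _).trans (Nat.pow_le_pow_right hN (he i))
      _ = N ^ ((k + 1) * D) := by
          rw [Finset.prod_const, Finset.card_univ, Fintype.card_fin, ← pow_mul, mul_comm]
  have pos : ∀ e : Fin (k + 1) → ℕ, 1 ≤ ∏ i, n i ^ e i := by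
    intro e
    refine Nat.one_le_iff_ne_zero.2 (Finset.prod_ne_zero_iff.2 fun i _ => pow_ne_zero _ ?_)
    have := (hn i).1
    omega
  have e1 : ∀ e : Fin (k + 1) → ℕ, Real.log ((∏ i, n i ^ e i : ℕ) : ℝ) =
      ∑ i, (e i : ℝ) * Real.log (n i) := by
    intro e
    rw [Nat.cast_prod, Real.log_prod]
    · refine Finset.sum_congr rfl fun i _ => ?_
      rw [Nat.cast_pow, Real.log_pow]
    · intro i _
      have := (hn i).1
      have h0 : n i ^ e i ≠ 0 := pow_ne_zero _ (by omega)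
      exact_mod_cast h0
  obtain ⟨P, hPd⟩ : ∃ P : ℕ, P = ∏ i, n i ^ (d i).toNat := ⟨_, rfl⟩
  obtain ⟨Q, hQd⟩ : ∃ Q : ℕ, Q = ∏ i, n i ^ (-d i).toNat := ⟨_, rfl⟩
  have hlog : Phi x w n = Real.log P - Real.log Q := by
    rw [hPd, hQd, e1, e1, ← Finset.sum_sub_distrib]
    refine Finset.sum_congr rfl fun i _ => ?_
    have h1 : (d i) = ((d i).toNat : ℤ) - ((-d i).toNat : ℤ) := by omega
    have h2 : ((d i : ℤ) : ℝ) = ((d i).toNat : ℝ) - ((-d i).toNat : ℝ) := by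
      have := congrArg (fun z : ℤ => (z : ℝ)) h1
      simpa only [Int.cast_sub, Int.cast_natCast] using this
    have h3 : x (w i) - x (w (i + 1)) = d i := by rw [hd]
    rw [h3, h2]
    ring
  have hP1 : 1 ≤ P := by rw [hPd]; exact pos _
  have hQ1 : 1 ≤ Q := by rw [hQd]; exact pos _
  have hPN : P ≤ N ^ ((k + 1) * D) := by
    rw [hPd]
    refine bd _ fun i => ?_
    have := abs_le.1 (hdD i)
    omega
  have hQN : Q ≤ N ^ ((k + 1) * D) := by
    rw [hQd]
    refine bd _ fun i => ?_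
    have := abs_le.1 (hdD i)
    omega
  have key : ∀ A : ℕ, 1 ≤ A → A ≤ N ^ ((k + 1) * D) → 1 / (N : ℝ) ^ ((k + 1) * D) ≤ 1 / (A : ℝ) := by
    intro A hA hAN
    refine one_div_le_one_div_of_le (by exact_mod_cast hA) ?_
    exact_mod_cast hAN
  rw [hlog] at hPhi ⊢
  rcases lt_trichotomy P Q with h | h | h
  · have h1 := loggap hQ1 hP1 h
    rw [abs_sub_comm]
    exact (key Q hQ1 hQN).trans (h1.trans (le_abs_self _))
  · exact absurd (by rw [h, sub_self]) hPhi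
  · have h1 := loggap hP1 hQ1 h
    exact (key P hP1 hPN).trans (h1.trans (le_abs_self _))

end Pool.Agent.Helper83.DIL.GAP
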